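import Pool.Agent.Run7.h745.PC_Main

/-!
# MP_7f766c_an: piecewise conjugacy does not imply unitary equivalence

There are a compact metrizable space `X` and two classical multivariable dynamical systems
`σ = (σ_1, …, σ_4)` and `τ = (τ_1, …, τ_4)` of continuous self-maps of `X` (continuous maps of a
compact Hausdorff space are proper, and `C_0(X) = C(X)`) which are piecewise conjugate, but whose
C*-correspondences `C(X)^4` are not unitarily equivalent. This answers Q1 in the negative.

`X` is the disjoint union of the simplex whose vertices are the 24 permutations of four letters,
the Hilbert cube and the unit interval. The maps `σ_j` and `τ_i` on the simplex coincide exactly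
as prescribed by the permutations whose barycentric coordinate is large; the cube and the
interval are there to make the system so rigid that every possible conjugacy is the identity.
A unitary equivalence then is a continuous family of unitary `4 × 4` matrices on the simplex with
prescribed zero patterns. Continuous logarithms of its minors on convex regions give integers
`S(σ)`, with the parity of the permutation `σ`, such that
`S(σ) + S(σ (ab)(cd)) = S(σ (ab)) + S(σ (cd))`, and nine of these relations are contradictory
modulo 2.
-/

namespace Pool.Agent.Results.MP_7f766c_an.NotUnitarilyEquivalent

open Pool.Agent.Run7.h745.PC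

theorem result : ∃ (X : Type) (_ : TopologicalSpace X) (_ : CompactSpace X) (_ : T2Space X)
    (_ : TopologicalSpace.MetrizableSpace X) (σ τ : Fin 4 → C(X, X)),
      PiecewiseConjugate σ τ ∧ ¬ UnitarilyEquivalent σ τ :=
  ⟨XX, inferInstance, inferInstance, inferInstance, inferInstance, sig, tau,
    Pool.Agent.Run7.h416.PC.piecewise, not_equiv⟩

end Pool.Agent.Results.MP_7f766c_an.NotUnitarilyEquivalent
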